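import Mathlib
import Pool.Agent.Helper73.TH.Defs
import Pool.Agent.Helper73.TH.UDefs
import Pool.Agent.Helper8.Thurn1

set_option autoImplicit false

/-!
Project TH, pieces TH-6 and TH-7: coprime shifts and one step of the construction.
-/

namespace Pool.Agent.Helper73.TH

theorem exists_shift (A B N : ℤ) (hN : 0 < N)
    (h : ∀ p : ℤ, Prime p → p ∣ A → p ∣ B → p ∣ N → False) :
    ∃ k : ℤ, 0 ≤ k ∧ k ≤ N ∧ IsCoprime (A + k * B) N := by
  classical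
  obtain ⟨n, rfl⟩ : ∃ n : ℕ, N = n := ⟨N.toNat, by omega⟩
  have hn : n ≠ 0 := by rintro rfl; simp at hN
  set F : Finset ℕ := n.primeFactors.filter (fun p => ¬ ((p : ℤ) ∣ A)) with hF
  set k : ℕ := ∏ p ∈ F, p with hk
  have hkn : k ∣ n :=
    (Finset.prod_dvd_prod_of_subset _ _ _ (Finset.filter_subset _ _)).trans
      (Nat.prod_primeFactors_dvd n)
  refine ⟨k, by positivity, by exact_mod_cast Nat.le_of_dvd (Nat.pos_of_ne_zero hn) hkn, ?_⟩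
  apply isCoprime_of_prime_dvd
  · rintro ⟨-, h0⟩
    exact hn (by exact_mod_cast h0)
  intro p hp h1 h2
  have hq : Nat.Prime p.natAbs := Int.prime_iff_natAbs_prime.mp hp
  have hqn : p.natAbs ∣ n := by
    have := Int.natAbs_dvd_natAbs.mpr h2
    simpa using this
  by_cases hA : p ∣ A
  · have h3 : p ∣ (k : ℤ) * B := (dvd_add_right hA).mp h1
    rcases hp.dvd_or_dvd h3 with h4 | h4
    · have h5 : p.natAbs ∣ k := by
        have := Int.natAbs_dvd_natAbs.mpr h4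
        simpa using this
      rw [hk] at h5
      obtain ⟨q, hqF, hq2⟩ := (Nat.Prime.prime hq).dvd_finset_prod_iff _ |>.mp h5
      rw [hF, Finset.mem_filter] at hqF
      have hqp : Nat.Prime q := Nat.prime_of_mem_primeFactors hqF.1
      have h6 : p.natAbs = q := (Nat.prime_dvd_prime_iff_eq hq hqp).mp hq2
      apply hqF.2
      rw [← h6]
      exact Int.natAbs_dvd.mpr hA
    · exact h p hp hA h4 h2
  · have hmem : p.natAbs ∈ F := by
      rw [hF, Finset.mem_filter, Nat.mem_primeFactors]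
      refine ⟨⟨hq, hqn, hn⟩, ?_⟩
      intro h7
      exact hA (Int.natAbs_dvd.mp h7)
    have h8 : p.natAbs ∣ k := Finset.dvd_prod_of_mem _ hmem
    have h9 : p ∣ (k : ℤ) := Int.natAbs_dvd.mp (by exact_mod_cast h8)
    exact hA ((dvd_add_left (h9.mul_right B)).mp h1)

/-- the real estimates that hold for all large `t` -/
lemma large (P : Par) : ∃ t0 : ℝ, ∀ t : ℝ, t0 ≤ t →
    0 ≤ t ∧
    1 + 2 * Real.exp (P.α * t) ≤ Real.exp (P.α * (P.γ * t)) ∧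
    1 + 64 * Real.exp ((1 + P.α / P.γ + P.α) * t) ≤ Real.exp (P.κ * t) ∧
    40 * Real.exp ((1 + P.α * P.γ) * t) ≤ 4 * Real.exp ((P.γ + P.α) * t) := by
  obtain ⟨α, γ, κ, hα0, hα1, hγ, hκ, hm⟩ := P
  have a1 : 0 < α * (γ - 1) := mul_pos hα0 (by linarith)
  have a2 : 0 < κ - (1 + α / γ + α) := by linarith
  have a3 : 0 < (γ - 1) * (1 - α) := mul_pos (by linarith) (by linarith)
  refine ⟨max 0 (max (3 / (α * (γ - 1))) (max (65 / (κ - (1 + α / γ + α)))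
    (10 / ((γ - 1) * (1 - α))))), ?_⟩
  intro t ht
  simp only [max_le_iff] at ht
  obtain ⟨ht0, ht1, ht2, ht3⟩ := ht
  rw [div_le_iff₀ a1] at ht1
  rw [div_le_iff₀ a2] at ht2
  rw [div_le_iff₀ a3] at ht3
  have e1 := Real.add_one_le_exp (t * (α * (γ - 1)))
  have e2 := Real.add_one_le_exp (t * (κ - (1 + α / γ + α)))
  have e3 := Real.add_one_le_exp (t * ((γ - 1) * (1 - α)))
  have hg : 0 < γ := by linarith
  dsimp only
  refine ⟨ht0, ?_, ?_, ?_⟩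
  · have : Real.exp (α * (γ * t)) = Real.exp (α * t) * Real.exp (t * (α * (γ - 1))) := by
      rw [← Real.exp_add]; ring_nf
    rw [this]
    have h1 : 1 ≤ Real.exp (α * t) := Real.one_le_exp (by positivity)
    nlinarith
  · have : Real.exp (κ * t) = Real.exp ((1 + α / γ + α) * t) *
        Real.exp (t * (κ - (1 + α / γ + α))) := by
      rw [← Real.exp_add]; ring_nf
    rw [this]
    have h1 : 1 ≤ Real.exp ((1 + α / γ + α) * t) := Real.one_le_exp (by positivity)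
    nlinarith
  · have : Real.exp ((γ + α) * t) = Real.exp ((1 + α * γ) * t) *
        Real.exp (t * ((γ - 1) * (1 - α))) := by
      rw [← Real.exp_add]; ring_nf
    rw [this]
    have h1 : 0 < Real.exp ((1 + α * γ) * t) := Real.exp_pos _
    nlinarith

theorem step (P : Par) : ∃ t0 : ℝ, ∀ t : ℝ, t0 ≤ t → ∀ S : St, Inv P t S →
    ∃ S' : St, ∃ k : ℕ, ∃ v0 v1 v2 : ℤ, Inv P (P.γ * t) S' ∧ Rel P t S S' k v0 v1 v2 := by
  obtain ⟨t0, ht0⟩ := large P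
  refine ⟨t0, fun t ht S hS => ?_⟩
  obtain ⟨htp, L1, L2, L3⟩ := ht0 t ht
  obtain ⟨hdet, hcop1, hb1l, hb1u, hb2l, hb2u, hzl, hzu⟩ := hS
  have hγ0 : 0 < P.γ := by linarith [P.hγ]
  have hα0 := P.hα0
  have hm0 : 0 < P.γ + P.α - P.κ := by linarith [P.hm]
  have hκ0 : 0 < P.κ := by
    have := P.hκ
    have : 0 < P.α / P.γ := by positivity
    linarith
  -- the number n
  have hexpm : 1 ≤ Real.exp ((P.γ + P.α - P.κ) * t) := Real.one_le_exp (by positivity)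
  have hM : 1 ≤ ⌈Real.exp ((P.γ + P.α - P.κ) * t)⌉₊ := Nat.one_le_ceil_iff.mpr (Real.exp_pos _)
  obtain ⟨k, hk1, hk2⟩ := Pool.Agent.Helper8.Thurn.exists_fib _ hM
  have hnl : Real.exp ((P.γ + P.α - P.κ) * t) ≤ (Nat.fib (k + 1) : ℝ) :=
    (Nat.le_ceil _).trans (by exact_mod_cast hk1)
  have hnu : (Nat.fib (k + 1) : ℝ) ≤ 4 * Real.exp ((P.γ + P.α - P.κ) * t) := by
    have h1 : (Nat.fib (k + 1) : ℝ) ≤ 2 * (⌈Real.exp ((P.γ + P.α - P.κ) * t)⌉₊ : ℝ) := by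
      exact_mod_cast hk2
    have h2 := Nat.ceil_lt_add_one (Real.exp_pos ((P.γ + P.α - P.κ) * t)).le
    linarith
  obtain ⟨n, hn⟩ : ∃ n : ℤ, n = (Nat.fib (k+1) : ℤ) := ⟨_, rfl⟩
  obtain ⟨r, hr⟩ : ∃ r : ℤ, r = (Nat.fib k : ℤ) := ⟨_, rfl⟩
  have hr0 : 0 ≤ r := by rw [hr]; positivity
  have hrn : r ≤ n := by rw [hn, hr]; exact_mod_cast Nat.fib_le_fib_succ
  have hnR : (n : ℝ) = (Nat.fib (k + 1) : ℝ) := by rw [hn]; push_cast; rfl
  have hnlR : Real.exp ((P.γ + P.α - P.κ) * t) ≤ (n : ℝ) := by rw [hnR]; exact hnl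
  have hnuR : (n : ℝ) ≤ 4 * Real.exp ((P.γ + P.α - P.κ) * t) := by rw [hnR]; exact hnu
  -- coprimality
  have hcop : IsCoprime n r := by
    have := (Nat.fib_coprime_fib_succ k).symm
    rw [hn, hr]
    exact Nat.isCoprime_iff_coprime.mpr this
  obtain ⟨α, γ, hαγ⟩ := id hcop
  have hb1pos : 0 < S.b1 := by
    have : (0 : ℝ) < (S.b1 : ℝ) := lt_of_lt_of_le (Real.exp_pos _) hb1l
    exact_mod_cast this
  -- the vector c'
  obtain ⟨V, hV⟩ : ∃ V : ℤ, V = ⌈Real.exp (P.κ * t)⌉ := ⟨_, rfl⟩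
  have hVl : Real.exp (P.κ * t) ≤ (V : ℝ) := by rw [hV]; exact Int.le_ceil _
  have hVu : (V : ℝ) ≤ Real.exp (P.κ * t) + 1 := by rw [hV]; exact (Int.ceil_lt_add_one _).le
  clear hV
  obtain ⟨W, hW⟩ : ∃ W : ℤ, W = S.b1 * S.c2 - S.b2 * S.c1 := ⟨_, rfl⟩
  obtain ⟨c₀, hc₀⟩ : ∃ c₀ : ℤ, c₀ = (W - V) / S.z0 := ⟨_, rfl⟩
  obtain ⟨rem, hrem⟩ : ∃ rem : ℤ, rem = (W - V) % S.z0 := ⟨_, rfl⟩
  have hdiv : W - V = S.z0 * c₀ + rem := by
    rw [hc₀, hrem]; exact (Int.mul_ediv_add_emod _ _).symm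
  have hrem0 : 0 ≤ rem := by rw [hrem]; exact Int.emod_nonneg _ hzl.ne'
  have hremD : rem < S.z0 := by rw [hrem]; exact Int.emod_lt_of_pos _ hzl
  clear hc₀ hrem
  -- the shift
  obtain ⟨k', hk'0, hk'N, hk'c⟩ := exists_shift (n * (S.c1 + c₀ * S.a1) - r * S.a1)
    (-(n * S.a1)) S.b1 hb1pos (by
      intro p hp hA hB hb
      have hpa : ¬ p ∣ S.a1 := by
        intro hpa
        exact hp.not_unit (hcop1.isUnit_of_dvd' hpa hb)
      have hpn : p ∣ n := by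
        rcases hp.dvd_or_dvd ((dvd_neg).mp hB) with h | h
        · exact h
        · exact absurd h hpa
      have hpr : p ∣ r * S.a1 := by
        have h1 : p ∣ n * (S.c1 + c₀ * S.a1) := hpn.mul_right _
        have h2 := dvd_sub h1 hA
        have h3 : n * (S.c1 + c₀ * S.a1) - (n * (S.c1 + c₀ * S.a1) - r * S.a1) = r * S.a1 := by
          ring
        rwa [h3] at h2
      rcases hp.dvd_or_dvd hpr with h | h
      · exact hp.not_unit (hcop.isUnit_of_dvd' hpn h)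
      · exact hpa h)
  obtain ⟨cc, hcc⟩ : ∃ cc : ℤ, cc = c₀ - k' := ⟨_, rfl⟩
  obtain ⟨c0', hc0'⟩ : ∃ x : ℤ, x = S.c0 + cc * S.a0 := ⟨_, rfl⟩
  obtain ⟨c1', hc1'⟩ : ∃ x : ℤ, x = S.c1 + cc * S.a1 := ⟨_, rfl⟩
  obtain ⟨c2', hc2'⟩ : ∃ x : ℤ, x = S.c2 + cc * S.a2 := ⟨_, rfl⟩
  obtain ⟨v0, hv0⟩ : ∃ x : ℤ, x = S.b1 * c2' - S.b2 * c1' := ⟨_, rfl⟩
  obtain ⟨v1, hv1⟩ : ∃ x : ℤ, x = S.b2 * c0' - S.b0 * c2' := ⟨_, rfl⟩
  obtain ⟨v2, hv2⟩ : ∃ x : ℤ, x = S.b0 * c1' - S.b1 * c0' := ⟨_, rfl⟩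
  have hv0' : v0 = V + rem + k' * S.z0 := by
    have : v0 = W - S.z0 * cc := by
      rw [hv0, hc2', hc1', hW, St.z0]; ring
    rw [this, hcc]
    linear_combination hdiv
  -- the vector w
  obtain ⟨W1, hW1⟩ : ∃ W1 : ℤ, W1 = ⌈Real.exp (P.α * (P.γ * t))⌉ := ⟨_, rfl⟩
  have hW1l : Real.exp (P.α * (P.γ * t)) ≤ (W1 : ℝ) := by rw [hW1]; exact Int.le_ceil _
  have hW1u : (W1 : ℝ) ≤ Real.exp (P.α * (P.γ * t)) + 1 := by
    rw [hW1]; exact (Int.ceil_lt_add_one _).le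
  clear hW1
  obtain ⟨q, hq⟩ : ∃ x : ℤ, x = (n * c1' - r * S.a1 - W1) / S.b1 := ⟨_, rfl⟩
  obtain ⟨rem2, hrem2⟩ : ∃ x : ℤ, x = (n * c1' - r * S.a1 - W1) % S.b1 := ⟨_, rfl⟩
  have hdiv2 : n * c1' - r * S.a1 - W1 = S.b1 * q + rem2 := by
    rw [hq, hrem2]; exact (Int.mul_ediv_add_emod _ _).symm
  have hrem20 : 0 ≤ rem2 := by rw [hrem2]; exact Int.emod_nonneg _ hb1pos.ne'
  have hrem2b : rem2 < S.b1 := by rw [hrem2]; exact Int.emod_lt_of_pos _ hb1pos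
  clear hq hrem2
  obtain ⟨w0, hw0⟩ : ∃ x : ℤ, x = n * c0' - r * S.a0 - q * S.b0 := ⟨_, rfl⟩
  obtain ⟨w1, hw1⟩ : ∃ x : ℤ, x = n * c1' - r * S.a1 - q * S.b1 := ⟨_, rfl⟩
  obtain ⟨w2, hw2⟩ : ∃ x : ℤ, x = n * c2' - r * S.a2 - q * S.b2 := ⟨_, rfl⟩
  have hw1' : w1 = W1 + rem2 := by rw [hw1]; linarith
  have hcopw : IsCoprime S.b1 w1 := by
    have h1 : w1 = n * (S.c1 + c₀ * S.a1) - r * S.a1 + k' * (-(n * S.a1)) + S.b1 * (-q) := by
      rw [hw1, hc1', hcc]; ring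
    rw [h1]
    exact (IsCoprime.add_mul_left_left hk'c (-q)).symm
  have hz0' : S.b1 * w2 - S.b2 * w1 = n * v0 + r * S.z0 := by
    rw [hw1, hw2, hv0, St.z0]; ring
  have hz1' : S.b2 * w0 - S.b0 * w2 = n * v1 + r * S.z1 := by
    rw [hw0, hw2, hv1, St.z1]; ring
  have hz2' : S.b0 * w1 - S.b1 * w0 = n * v2 + r * S.z2 := by
    rw [hw0, hw1, hv2, St.z2]; ring
  have hva : v0 * S.a0 + v1 * S.a1 + v2 * S.a2 = 1 := by
    rw [← hdet, St.dt, St.z0, St.z1, St.z2, hv0, hv1, hv2, hc0', hc1', hc2']; ring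
  have hvb : v0 * S.b0 + v1 * S.b1 + v2 * S.b2 = 0 := by
    rw [hv0, hv1, hv2]; ring
  have hvc : v0 * c0' + v1 * c1' + v2 * c2' = 0 := by
    rw [hv0, hv1, hv2]; ring
  have hza : S.z0 * S.a0 + S.z1 * S.a1 + S.z2 * S.a2 = 0 := by
    rw [St.z0, St.z1, St.z2]; ring
  have hzc : S.z0 * c0' + S.z1 * c1' + S.z2 * c2' = 1 := by
    rw [← hdet, St.dt, hc0', hc1', hc2', St.z0, St.z1, St.z2]; ring
  have hzv2 : S.z0 * v1 - S.z1 * v0 = S.b2 := by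
    have : S.z0 * v1 - S.z1 * v0 = S.b2 * S.dt := by
      rw [St.dt, hv1, hv0, hc0', hc1', hc2', St.z0, St.z1, St.z2]; ring
    rw [this, hdet, mul_one]
  have hzv1 : S.z2 * v0 - S.z0 * v2 = S.b1 := by
    have : S.z2 * v0 - S.z0 * v2 = S.b1 * S.dt := by
      rw [St.dt, hv2, hv0, hc0', hc1', hc2', St.z0, St.z1, St.z2]; ring
    rw [this, hdet, mul_one]
  -- size estimates
  have hzpR : (1 : ℝ) ≤ (S.z0 : ℝ) := by exact_mod_cast hzl
  have hb1R : (0 : ℝ) < (S.b1 : ℝ) := by exact_mod_cast hb1pos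
  have hn0R : (0 : ℝ) ≤ (n : ℝ) := (Real.exp_pos _).le.trans hnlR
  have hr0R : (0 : ℝ) ≤ (r : ℝ) := by exact_mod_cast hr0
  have hrnR : (r : ℝ) ≤ (n : ℝ) := by exact_mod_cast hrn
  have hrem0R : (0 : ℝ) ≤ (rem : ℝ) := by exact_mod_cast hrem0
  have hremR : (rem : ℝ) ≤ (S.z0 : ℝ) := by exact_mod_cast hremD.le
  have hk'0R : (0 : ℝ) ≤ (k' : ℝ) := by exact_mod_cast hk'0
  have hk'R : (k' : ℝ) ≤ (S.b1 : ℝ) := by exact_mod_cast hk'N
  have hv0R : (v0 : ℝ) = V + rem + k' * S.z0 := by rw [hv0']; push_cast; ring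
  have hv0l : Real.exp (P.κ * t) ≤ (v0 : ℝ) := by
    rw [hv0R]
    have : (0 : ℝ) ≤ (k' : ℝ) * S.z0 := by positivity
    linarith
  have hone : 1 ≤ Real.exp (P.α * t) := Real.one_le_exp (by positivity)
  -- z0 (2 + b1) is small
  have hsmall : (S.z0 : ℝ) * (2 + S.b1) ≤ 64 * Real.exp ((1 + P.α / P.γ + P.α) * t) := by
    have e : Real.exp ((1 + P.α / P.γ + P.α) * t) =
        Real.exp ((1 + P.α / P.γ) * t) * Real.exp (P.α * t) := by
      rw [← Real.exp_add]; ring_nf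
    rw [e]
    have h1 : (2 : ℝ) + S.b1 ≤ 4 * Real.exp (P.α * t) := by linarith
    calc (S.z0 : ℝ) * (2 + S.b1)
        ≤ (16 * Real.exp ((1 + P.α / P.γ) * t)) * (4 * Real.exp (P.α * t)) :=
          mul_le_mul hzu h1 (by positivity) (by positivity)
      _ = 64 * (Real.exp ((1 + P.α / P.γ) * t) * Real.exp (P.α * t)) := by ring
  have hZl : Real.exp ((P.γ + P.α) * t) ≤ (n : ℝ) * v0 + r * S.z0 := by
    have e : Real.exp ((P.γ + P.α) * t) =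
        Real.exp ((P.γ + P.α - P.κ) * t) * Real.exp (P.κ * t) := by
      rw [← Real.exp_add]; ring_nf
    rw [e]
    have h1 : Real.exp ((P.γ + P.α - P.κ) * t) * Real.exp (P.κ * t) ≤ (n : ℝ) * v0 :=
      mul_le_mul hnlR hv0l (Real.exp_pos _).le hn0R
    have h2 : (0 : ℝ) ≤ (r : ℝ) * S.z0 := by positivity
    linarith
  have hZu : (n : ℝ) * v0 + r * S.z0 ≤ 8 * Real.exp ((P.γ + P.α) * t) := by
    have e : Real.exp ((P.γ + P.α) * t) =
        Real.exp ((P.γ + P.α - P.κ) * t) * Real.exp (P.κ * t) := by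
      rw [← Real.exp_add]; ring_nf
    rw [e]
    have h1 : (r : ℝ) * S.z0 ≤ n * S.z0 := mul_le_mul_of_nonneg_right hrnR (by linarith)
    have h2 : (k' : ℝ) * S.z0 ≤ S.b1 * S.z0 := mul_le_mul_of_nonneg_right hk'R (by linarith)
    have h3 : (v0 : ℝ) + S.z0 ≤ 2 * Real.exp (P.κ * t) := by
      rw [hv0R]
      nlinarith
    have h4 : (n : ℝ) * (v0 + S.z0) ≤
        (4 * Real.exp ((P.γ + P.α - P.κ) * t)) * (2 * Real.exp (P.κ * t)) := by
      have : (0 : ℝ) ≤ v0 + S.z0 := by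
        have := (Real.exp_pos (P.κ * t)).le.trans hv0l
        linarith
      exact mul_le_mul hnuR h3 this (by positivity)
    nlinarith
  have hw1l : Real.exp (P.α * (P.γ * t)) ≤ (w1 : ℝ) := by
    have : (w1 : ℝ) = W1 + rem2 := by rw [hw1']; push_cast; ring
    have h2 : (0 : ℝ) ≤ (rem2 : ℝ) := by exact_mod_cast hrem20
    linarith
  have hw1u : (w1 : ℝ) ≤ 2 * Real.exp (P.α * (P.γ * t)) := by
    have : (w1 : ℝ) = W1 + rem2 := by rw [hw1']; push_cast; ring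
    have h2 : (rem2 : ℝ) ≤ (S.b1 : ℝ) := by exact_mod_cast hrem2b.le
    linarith
  have hZR : (S.b1 : ℝ) * w2 - S.b2 * w1 = (n : ℝ) * v0 + r * S.z0 := by exact_mod_cast hz0'
  have hw1p : (0 : ℝ) < (w1 : ℝ) := lt_of_lt_of_le (Real.exp_pos _) hw1l
  have hb2p : (0 : ℝ) < (S.b2 : ℝ) := by
    have := Real.exp_pos t
    linarith
  have eγα : Real.exp ((P.γ + P.α) * t) = Real.exp (P.α * t) * Real.exp (P.γ * t) := by
    rw [← Real.exp_add]; ring_nf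
  have hw2p : (0 : ℝ) < (w2 : ℝ) := by
    by_contra hneg
    push Not at hneg
    have h1 : (S.b1 : ℝ) * w2 ≤ 0 := mul_nonpos_of_nonneg_of_nonpos hb1R.le hneg
    have h2 : 0 < (S.b2 : ℝ) * w1 := by positivity
    have h3 := Real.exp_pos ((P.γ + P.α) * t)
    linarith
  have hw2l : Real.exp (P.γ * t) ≤ 2 * (w2 : ℝ) := by
    have h1 : (S.b1 : ℝ) * w2 ≤ (2 * Real.exp (P.α * t)) * w2 :=
      mul_le_mul_of_nonneg_right hb1u hw2p.le
    have h2 : 0 < (S.b2 : ℝ) * w1 := by positivity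
    have h3 : Real.exp (P.α * t) * Real.exp (P.γ * t) ≤ Real.exp (P.α * t) * (2 * w2) := by
      rw [← eγα]; linarith
    exact le_of_mul_le_mul_left h3 (Real.exp_pos _)
  have hw2u : (w2 : ℝ) ≤ 20 * Real.exp (P.γ * t) := by
    have h1 : Real.exp (P.α * t) * w2 ≤ (S.b1 : ℝ) * w2 :=
      mul_le_mul_of_nonneg_right hb1l hw2p.le
    have h2 : (S.b2 : ℝ) * w1 ≤ (20 * Real.exp t) * (2 * Real.exp (P.α * (P.γ * t))) :=
      mul_le_mul hb2u hw1u hw1p.le (by positivity)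
    have h3 : (20 * Real.exp t) * (2 * Real.exp (P.α * (P.γ * t))) =
        40 * Real.exp ((1 + P.α * P.γ) * t) := by
      have : Real.exp ((1 + P.α * P.γ) * t) = Real.exp t * Real.exp (P.α * (P.γ * t)) := by
        rw [← Real.exp_add]; ring_nf
      rw [this]; ring
    have h4 : Real.exp (P.α * t) * w2 ≤ Real.exp (P.α * t) * (20 * Real.exp (P.γ * t)) := by
      have h5 : 0 < Real.exp (P.α * t) * Real.exp (P.γ * t) := by positivity
      have h6 : (S.b1 : ℝ) * w2 ≤ 12 * (Real.exp (P.α * t) * Real.exp (P.γ * t)) := by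
        rw [← eγα]; linarith
      nlinarith
    exact le_of_mul_le_mul_left h4 (Real.exp_pos _)
  have hdet' : (n * v0 + r * S.z0) * (α * S.a0 + γ * c0') + (n * v1 + r * S.z1) * (α * S.a1 + γ * c1') +
        (n * v2 + r * S.z2) * (α * S.a2 + γ * c2') = 1 := by
    have : (n * v0 + r * S.z0) * (α * S.a0 + γ * c0') + (n * v1 + r * S.z1) * (α * S.a1 + γ * c1') +
        (n * v2 + r * S.z2) * (α * S.a2 + γ * c2') =
        n * α * (v0 * S.a0 + v1 * S.a1 + v2 * S.a2) + n * γ * (v0 * c0' + v1 * c1' + v2 * c2')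
        + r * α * (S.z0 * S.a0 + S.z1 * S.a1 + S.z2 * S.a2)
        + r * γ * (S.z0 * c0' + S.z1 * c1' + S.z2 * c2') := by ring
    rw [this, hva, hvc, hza, hzc]
    linarith
  have hZposZ : 0 < n * v0 + r * S.z0 := by
    have : (0 : ℝ) < (n : ℝ) * v0 + r * S.z0 := lt_of_lt_of_le (Real.exp_pos _) hZl
    exact_mod_cast this
  have hZposE := Real.exp_pos ((P.γ + P.α) * t)
  -- assemble
  refine ⟨⟨S.b0, S.b1, S.b2, w0, w1, w2, α * S.a0 + γ * c0', α * S.a1 + γ * c1',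
    α * S.a2 + γ * c2'⟩, k, v0, v1, v2, ⟨?_, ?_, ?_, ?_, ?_, ?_, ?_, ?_⟩,
    ⟨rfl, rfl, rfl, hnl, hnu, ?_, ?_, ?_, hva, hvb, hzv2, hzv1, ?_, ?_⟩⟩
  · simp only [St.dt]
    rw [← hdet', ← hz0', ← hz1', ← hz2']
    rfl
  · exact hcopw
  · exact hw1l
  · exact hw1u
  · exact hw2l
  · exact hw2u
  · show 0 < S.b1 * w2 - S.b2 * w1
    rw [hz0']; exact hZposZ
  · show ((S.b1 * w2 - S.b2 * w1 : ℤ) : ℝ) ≤ 16 * Real.exp ((1 + P.α / P.γ) * (P.γ * t))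
    have e : (1 + P.α / P.γ) * (P.γ * t) = (P.γ + P.α) * t := by
      field_simp
    rw [e, hz0']
    push_cast
    linarith
  · rw [← hn, ← hr]; exact hz0'
  · rw [← hn, ← hr]; exact hz1'
  · rw [← hn, ← hr]; exact hz2'
  · show Real.exp ((P.γ + P.α) * t) ≤ ((S.b1 * w2 - S.b2 * w1 : ℤ) : ℝ)
    rw [hz0']
    push_cast
    exact hZl
  · show ((S.b1 * w2 - S.b2 * w1 : ℤ) : ℝ) ≤ 16 * Real.exp ((P.γ + P.α) * t)
    rw [hz0']
    push_cast
    linarith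

end Pool.Agent.Helper73.TH
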